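import Pool.Agent.H16.ORS.W

/-!
# ORS, row BAS: a world without wrong addresses
-/

open Polynomial Finset
open Pool.ORB (Ad pre str Wo Enu Acc Tr inl al un LL AgO pair OM PT NP UP coUP Sig S2 PH AdvL S2L
  Fct FS Fn Val ans Hp Tp Np Sp)

namespace Pool.ORS

open Classical in
/-- The step of the fixed point of row BAS. -/
noncomputable def basPhi (en : Enu) (ω : Wo) (e : Ad) : Option (List Bool × Bool) :=
  if e.1 = 0 then none else some (List.replicate (nl en e) false, decide (tr en (orc en ω) e))

/-- BAS. -/
theorem bas_row (hFIX : Pool.ORB.FIXStmt) (hORW : ORWStmt) (hACC : ACCStmt) : BASStmt := by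
  classical
  intro en
  obtain ⟨-, -, horc⟩ := hORW
  obtain ⟨htr, -, -⟩ := hACC
  obtain ⟨ω, hω⟩ := hFIX Ad (Option (List Bool × Bool)) (lev en) (basPhi en) ⟨none⟩ (by
    intro ω ω' e hag
    unfold basPhi
    by_cases he : e.1 = 0
    · rw [if_pos he, if_pos he]
    · rw [if_neg he, if_neg he]
      have hpos : 1 ≤ lev en e := by
        unfold lev
        omega
      have key : tr en (orc en ω) e ↔ tr en (orc en ω') e := by
        refine htr en (lev en e - 1) _ _ e he (by omega) (horc en (lev en e - 1) ω ω' ?_)
        intro e' he'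
        exact hag e' (by omega)
      rw [Option.some.injEq, Prod.mk.injEq]
      exact ⟨rfl, decide_eq_decide.2 key⟩)
  refine ⟨ω, ⟨?_, ?_⟩, ?_⟩
  · intro e w b he
    rw [← hω] at he
    unfold basPhi at he
    by_cases h0 : e.1 = 0
    · rw [if_pos h0] at he
      exact absurd he (by simp)
    · rw [if_neg h0, Option.some.injEq, Prod.mk.injEq] at he
      rw [← he.1, List.length_replicate]
  · intro i z h
    rw [← hω] at h
    unfold basPhi at h
    rw [if_neg (Nat.succ_ne_zero i)] at h
    exact absurd h (by simp)
  · rintro e ⟨he, hw⟩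
    apply hw
    have e1 : ω e = some (List.replicate (nl en e) false, decide (tr en (orc en ω) e)) := by
      have : ω e = basPhi en ω e := by rw [hω]
      rw [this]
      unfold basPhi
      rw [if_neg he]
    constructor
    · rintro ⟨w, hw'⟩
      rw [e1, Option.some.injEq, Prod.mk.injEq] at hw'
      exact of_decide_eq_true hw'.2
    · intro ht
      exact ⟨_, by rw [e1, decide_eq_true ht]⟩

end Pool.ORS
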