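import Pool.Agent.H16.ORS.W

/-!
# ORS, row QRY: the queries of the stage referee
-/

open Classical Finset Polynomial
open Pool.ORB (Ad pre str Wo Enu Acc Tr inl al un LL AgO pair OM PT NP UP coUP Sig S2 PH AdvL S2L
  Fct FS Fn Val ans Hp Tp Np Sp)

namespace Pool.ORS

/-- QRY. -/
theorem qry_row (hS : STRStmt) (hL : Pool.ORB.LOCStmt) : QRYStmt := by
  obtain ⟨-, hinj, -⟩ := hS
  intro en ω n EE M P x g
  obtain ⟨Q0, hQ1, -, hQ3⟩ := hL M (orcg en ω n EE g) (P.eval x.length) (M.init x)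
  set F : List Bool → Finset ({e // e ∈ EE} × List Bool) := fun s =>
    if h : ∃ y : {e // e ∈ EE} × List Bool, ∃ b, s = str y.1.1 y.2 b then {Classical.choose h}
    else ∅ with hF
  have hcard : ∀ s, (F s).card ≤ 1 := by
    intro s
    simp only [hF]
    split_ifs with h
    · simp
    · simp
  have hmem : ∀ (e : Ad) (he : e ∈ EE) (w : List Bool) (b : Bool),
      ((⟨e, he⟩ : {e // e ∈ EE}), w) ∈ F (str e w b) := by
    intro e he w b
    have h : ∃ y : {e // e ∈ EE} × List Bool, ∃ b', str e w b = str y.1.1 y.2 b' :=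
      ⟨(⟨e, he⟩, w), b, rfl⟩
    simp only [hF]
    rw [dif_pos h, Finset.mem_singleton]
    obtain ⟨b', hb⟩ := Classical.choose_spec h
    obtain ⟨h1, h2, -⟩ := hinj _ _ _ _ _ _ hb
    exact Prod.ext (Subtype.ext h1) h2
  refine ⟨Q0.biUnion F, ?_, ?_⟩
  · refine le_trans (Finset.card_biUnion_le_card_mul Q0 F 1 fun s _ => hcard s) ?_
    rw [mul_one]
    exact hQ1
  · intro g' hg'
    have key : ∀ g1 g2 : {e // e ∈ EE} → List Bool → Option Bool,
        (∀ y ∈ Q0.biUnion F, g1 y.1 y.2 = g2 y.1 y.2) → ∀ s ∈ Q0, s ∈ orcg en ω n EE g1 →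
        s ∈ orcg en ω n EE g2 := by
      rintro g1 g2 h12 s hs ⟨e, w, b, hw, rfl, h⟩
      refine ⟨e, w, b, hw, rfl, ?_⟩
      rcases h with ⟨he, h⟩ | h
      · refine Or.inl ⟨he, ?_⟩
        rw [← h12 (⟨e, he⟩, w) (Finset.mem_biUnion.2 ⟨_, hs, hmem e he w b⟩)]
        exact h
      · exact Or.inr h
    unfold Pool.ORB.Acc
    rw [hQ3 (orcg en ω n EE g') fun s hs => ⟨key g' g hg' s hs,
      key g g' (fun y hy => (hg' y hy).symm) s hs⟩]

end Pool.ORS
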